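import Mathlib

set_option autoImplicit false

open MeasureTheory Filter Topology Metric Finset
open scoped ContDiff ENNReal

namespace Pool.Agent.H.MP_105042_an

abbrev E := EuclideanSpace ℝ (Fin 4)

noncomputable abbrev e (i : Fin 4) : E := EuclideanSpace.single i 1

noncomputable def s (y : E) : ℝ := (1 + ‖y‖ ^ 2)⁻¹

def dl (i : Fin 4) : ℝ := if i = 0 then 1 else 0

noncomputable def P (a : Fin 2) (y : E) : ℝ := ![s y, y 0 * s y ^ 2] a

noncomputable def D (a : Fin 2) (i : Fin 4) (y : E) : ℝ :=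
  ![-2 * y i * s y ^ 2, dl i * s y ^ 2 - 4 * y 0 * y i * s y ^ 3] a

noncomputable def D2 (a : Fin 2) (i : Fin 4) (y : E) : ℝ :=
  ![-2 * s y ^ 2 + 8 * y i ^ 2 * s y ^ 3,
    -8 * dl i * y i * s y ^ 3 - 4 * y 0 * s y ^ 3 + 24 * y 0 * y i ^ 2 * s y ^ 4] a

noncomputable def L (a : Fin 2) (y : E) : ℝ := ![-8 * s y ^ 3, -24 * y 0 * s y ^ 4] a

@[fun_prop] lemma s_cont : Continuous s :=
  Continuous.inv₀ (by fun_prop) fun _ => by positivity

lemma s_pos (y : E) : 0 < s y := by unfold s; positivity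

lemma nsq (y : E) : ‖y‖ ^ 2 = y 0 ^ 2 + y 1 ^ 2 + y 2 ^ 2 + y 3 ^ 2 := by
  simp [EuclideanSpace.norm_sq_eq, Fin.sum_univ_four]

lemma s_eq (y : E) : s y * (1 + (y 0 ^ 2 + y 1 ^ 2 + y 2 ^ 2 + y 3 ^ 2)) = 1 := by
  rw [← nsq, s]; field_simp

lemma hc (y : E) (i k : Fin 4) :
    HasDerivAt (fun t : ℝ => (y + t • e i) k) (if k = i then 1 else 0) 0 := by
  have := ((hasDerivAt_id (0 : ℝ)).mul_const (if k = i then 1 else 0)).const_add (y k)
  simpa [Pi.single_apply] using this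

lemma hs (y : E) (i : Fin 4) :
    HasDerivAt (fun t : ℝ => s (y + t • e i)) (-2 * y i * s y ^ 2) 0 := by
  have h1 : HasDerivAt (fun t : ℝ => y + t • e i) (e i) 0 := by
    simpa using ((hasDerivAt_id (0 : ℝ)).smul_const (e i)).const_add y
  have h2 := (h1.norm_sq.const_add 1).inv (by positivity)
  refine h2.congr_deriv ?_
  simp [s, EuclideanSpace.inner_single_right]
  field_simp

lemma hP (a : Fin 2) (i : Fin 4) (y : E) : HasLineDerivAt ℝ (P a) (D a i y) y (e i) := by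
  fin_cases a
  · exact hs y i
  · refine ((hc y i 0).mul ((hs y i).pow 2)).congr_deriv ?_
    simp only [D, dl, eq_comm (a := (0 : Fin 4))]
    simp
    ring

lemma hD (a : Fin 2) (i : Fin 4) (y : E) : HasLineDerivAt ℝ (D a i) (D2 a i y) y (e i) := by
  fin_cases a
  · refine (((hc y i i).const_mul (-2)).mul ((hs y i).pow 2)).congr_deriv ?_
    simp [D2]
    ring
  · refine ((((hs y i).pow 2).const_mul (dl i)).sub ((((hc y i 0).const_mul 4).mul
      (hc y i i)).mul ((hs y i).pow 3))).congr_deriv ?_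
    simp only [D2, dl, eq_comm (a := (0 : Fin 4))]
    split_ifs <;> simp <;> ring

lemma sumD2 (a : Fin 2) (y : E) : ∑ i, D2 a i y = L a y := by
  have := s_eq y
  fin_cases a <;> simp [D2, L, dl, Fin.sum_univ_four]
  · linear_combination (8 * s y ^ 2) * this
  · linear_combination (24 * y 0 * s y ^ 3) * this

lemma ys (y : E) (i : Fin 4) : s y ≤ 1 ∧ y i ^ 2 * s y ≤ 1 ∧ |y i * s y| ≤ 1 / 2 := by
  have h := s_eq y
  have h0 := s_pos y
  have h1 : y i ^ 2 ≤ y 0 ^ 2 + y 1 ^ 2 + y 2 ^ 2 + y 3 ^ 2 := by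
    fin_cases i <;> simp <;> nlinarith [sq_nonneg (y 0), sq_nonneg (y 1), sq_nonneg (y 2),
      sq_nonneg (y 3)]
  have h2 : s y * (1 + y i ^ 2) ≤ 1 := by nlinarith
  refine ⟨by nlinarith [sq_nonneg (y i)], by nlinarith, abs_le.2 ⟨?_, ?_⟩⟩
  · nlinarith [mul_nonneg h0.le (sq_nonneg (y i + 1))]
  · nlinarith [mul_nonneg h0.le (sq_nonneg (y i - 1))]

lemma bP (a : Fin 2) (y : E) : |P a y| ≤ s y := by
  have h0 := s_pos y
  fin_cases a
  · exact (abs_of_pos h0).le
  · have := abs_le.1 (ys y 0).2.2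
    simp only [P, abs_le]
    constructor <;> simp <;> nlinarith

lemma bD (a : Fin 2) (i : Fin 4) (y : E) : |D a i y| ≤ 5 * s y := by
  have h0 := s_pos y
  have h1 := abs_le.1 (ys y 0).2.2
  have h2 := abs_le.1 (ys y i).2.2
  have h3 := (ys y 0).1
  fin_cases a
  · simp only [D, abs_le]
    constructor <;> simp <;> nlinarith
  · have h4 : |(y 0 * s y) * (y i * s y)| ≤ 1 / 2 * (1 / 2) := by
      rw [abs_mul]; gcongr
      exacts [(ys y 0).2.2, (ys y i).2.2]
    have h5 := abs_le.1 h4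
    simp only [D, dl, abs_le]
    constructor <;> split_ifs <;> simp <;> nlinarith

lemma bL (a : Fin 2) (y : E) : |L a y| ≤ 12 * s y ^ 3 := by
  have h0 := pow_pos (s_pos y) 3
  have h1 := abs_le.1 (ys y 0).2.2
  fin_cases a <;> simp only [L, abs_le] <;> constructor <;> simp <;> nlinarith

lemma low (y : E) {m : ℝ} (h : ∀ a i, |D a i y| ≤ m) : s y ^ 3 ≤ 9 * m ^ 2 := by
  have h0 := s_pos y
  have h3 := pow_pos h0 3
  have k : ∀ a i, D a i y ^ 2 ≤ m ^ 2 := fun a i => by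
    rw [← sq_abs]; exact pow_le_pow_left₀ (abs_nonneg _) (h a i) 2
  have h1 := s_eq y
  rcases le_total (s y) (8 / 9) with h2 | h2
  · have a0 := k 0 0
    have a1 := k 0 1
    have a2 := k 0 2
    have a3 := k 0 3
    simp only [D, Matrix.cons_val_zero] at a0 a1 a2 a3
    have : 4 * (1 - s y) * s y ^ 3 ≤ 4 * m ^ 2 := by
      linear_combination a0 + a1 + a2 + a3 - (4 * s y ^ 3) * h1
    nlinarith
  · have a0 := le_of_abs_le (h 1 0)
    simp only [D, dl, Matrix.cons_val_one, Matrix.cons_val_zero, if_true] at a0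
    have a1 : y 0 ^ 2 * s y ≤ 1 / 9 := by
      nlinarith [mul_nonneg h0.le (sq_nonneg (y 1)), mul_nonneg h0.le (sq_nonneg (y 2)),
        mul_nonneg h0.le (sq_nonneg (y 3))]
    have a2 : s y ^ 2 / 2 ≤ m := by nlinarith [pow_pos h0 2]
    have a3 := pow_le_pow_left₀ (by positivity) a2 2
    nlinarith

lemma scale {f : E → ℝ} {f' : ℝ} {r : ℝ} {c x v : E}
    (h : HasLineDerivAt ℝ f f' (r • (x - c)) v) :
    HasLineDerivAt ℝ (fun x => f (r • (x - c))) (r * f') x v := by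
  have h1 : HasDerivAt (fun t : ℝ => r * t) r 0 := by simpa using (hasDerivAt_id (0 : ℝ)).const_mul r
  have h2 := HasDerivAt.comp_of_eq 0 h h1 (by simp)
  rw [mul_comm] at h2
  refine h2.congr_of_eventuallyEq (.of_forall fun t => ?_)
  simp only [Function.comp]
  congr 1
  module

lemma ibp {f f' ψ : E → ℝ} {v : E} (h : ∀ x, HasLineDerivAt ℝ f (f' x) x v) (hf : Continuous f)
    (hf' : Continuous f') (h1 : ContDiff ℝ ∞ ψ) (h2 : HasCompactSupport ψ) :
    ∫ x, f x * fderiv ℝ ψ x v = -∫ x, f' x * ψ x :=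
  integral_bilinear_hasLineDerivAt_right_eq_neg_left_of_integrable (B := ContinuousLinearMap.mul ℝ ℝ)
    ((hf'.mul h1.continuous).integrable_of_hasCompactSupport h2.mul_left)
    ((hf.mul ((h1.continuous_fderiv (by simp)).clm_apply continuous_const)).integrable_of_hasCompactSupport
      (h2.fderiv_apply ℝ v).mul_left)
    ((hf.mul h1.continuous).integrable_of_hasCompactSupport h2.mul_left) (fun x _ => h x)
    fun x _ => (h1.differentiable (by simp) x).hasFDerivAt.hasLineDerivAt v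

noncomputable def d (j : ℕ) : ℝ := 1 / 2 / 2 / 2 ^ j

noncomputable def Y (j : ℕ) (x : E) : E := (d j ^ 3)⁻¹ • (x - (4 * d j) • e 0)

noncomputable def A (j : ℕ) (x : E) : ℝ := (d j ^ 3)⁻¹ * s (Y j x)

lemma d_sum : HasSum d (1 / 2) := hasSum_geometric_two' _

lemma d_pos (j : ℕ) : 0 < d j := by unfold d; positivity

lemma d_le (j : ℕ) : d j ≤ 1 / 4 := by
  have : (1 : ℝ) ≤ 2 ^ j := one_le_pow₀ one_le_two
  rw [d, div_le_iff₀ (by positivity)]
  linarith

lemma d_half {j k : ℕ} (h : j < k) : 2 * d k ≤ d j := by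
  have : (2 : ℝ) ^ (j + 1) ≤ 2 ^ k := pow_le_pow_right₀ one_le_two h
  rw [d, d, ← mul_div_assoc, div_le_div_iff₀ (by positivity) (by positivity)]
  rw [pow_succ] at this
  linarith

@[fun_prop] lemma Y_cont (j : ℕ) : Continuous (Y j) := by unfold Y; fun_prop

@[fun_prop] lemma A_cont (j : ℕ) : Continuous (A j) := by unfold A; fun_prop

lemma A_pos (j : ℕ) (x : E) : 0 < A j x := by
  have := d_pos j
  have := s_pos (Y j x)
  unfold A; positivity

lemma A_le (j : ℕ) (x : E) : A j x ≤ (d j ^ 3)⁻¹ :=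
  mul_le_of_le_one_right (by have := d_pos j; positivity) (ys _ 0).1

lemma s_le (j : ℕ) (x : E) : s (Y j x) ≤ A j x := le_mul_of_one_le_left (s_pos _).le
  ((one_le_inv₀ (pow_pos (d_pos j) 3)).2 (pow_le_one₀ (d_pos j).le (by linarith [d_le j])))

lemma far {j : ℕ} {x : E} (h : d j ≤ ‖x - (4 * d j) • e 0‖) : A j x ≤ d j := by
  have h0 := d_pos j
  have h1 : (d j ^ 3)⁻¹ * d j ≤ ‖Y j x‖ := by
    rw [Y, norm_smul, Real.norm_of_nonneg (by positivity)]
    gcongr
  have h2 := pow_le_pow_left₀ (by positivity) h1 2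
  rw [A, s, ← mul_inv, inv_le_comm₀ (by positivity) h0]
  have h3 : (d j)⁻¹ = d j ^ 3 * ((d j ^ 3)⁻¹ * d j) ^ 2 := by field_simp
  rw [h3]
  gcongr
  linarith

lemma near {j : ℕ} {x : E} (h : d j < A j x) : 3 * d j < x 0 ∧ x 0 < 5 * d j ∧ ‖x‖ < 5 * d j := by
  have h0 := d_pos j
  have h1 : ‖x - (4 * d j) • e 0‖ < d j := lt_of_not_ge fun h' => h.not_ge (far h')
  have h2 := abs_lt.1 ((PiLp.norm_apply_le (x - (4 * d j) • e 0) 0).trans_lt h1)
  have h3 := norm_sub_norm_le x ((4 * d j) • e 0)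
  simp only [PiLp.sub_apply, PiLp.smul_apply, PiLp.single_eq_same, smul_eq_mul, mul_one] at h2
  rw [norm_smul, PiLp.norm_single, norm_one, Real.norm_of_nonneg (by positivity)] at h3
  exact ⟨by linarith, by linarith, by linarith⟩

lemma one_near (x : E) : ∃ k, ∀ j ≠ k, A j x ≤ d j := by
  by_cases h : ∃ k, d k < A k x
  · obtain ⟨k, hk⟩ := h
    refine ⟨k, fun j hj => le_of_not_gt fun h => ?_⟩
    have h1 := near hk
    have h2 := near h
    rcases lt_or_gt_of_ne hj with a | a <;> linarith [d_half a, d_pos j, d_pos k]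
  · push Not at h
    exact ⟨0, fun j _ => h j⟩

lemma A_int : ∃ c, 0 ≤ c ∧ ∀ j, Integrable (fun x => A j x ^ 3) ∧ ∫ x, A j x ^ 3 = c * d j ^ 3 := by
  have h : Integrable fun y : E => s y ^ 3 := by
    have := integrable_rpow_neg_one_add_norm_sq (E := E) (μ := volume) (r := 6) (by simp; norm_num)
    refine this.congr (.of_forall fun y => ?_)
    simp only [s]
    rw [show (-6 / 2 : ℝ) = -(3 : ℕ) by norm_num, Real.rpow_neg (by positivity), Real.rpow_natCast,
      inv_pow]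
  refine ⟨∫ y : E, s y ^ 3, integral_nonneg fun y => (pow_pos (s_pos y) 3).le, fun j => ?_⟩
  have h0 := d_pos j
  simp only [A, Y, mul_pow]
  refine ⟨((h.comp_smul (R := (d j ^ 3)⁻¹) (by positivity)).comp_sub_right _).const_mul _, ?_⟩
  rw [integral_const_mul, integral_sub_right_eq_self (fun x : E => s ((d j ^ 3)⁻¹ • x) ^ 3),
    Measure.integral_comp_inv_smul volume (fun y : E => s y ^ 3), abs_of_pos (by positivity)]
  simp
  field_simp

end Pool.Agent.H.MP_105042_an
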