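import Pool.Agent.H.MP_105042_an.A

set_option autoImplicit false

open MeasureTheory Filter Topology Metric Finset
open scoped ContDiff ENNReal

namespace Pool.Agent.H.MP_105042_an

def Dom (K : ℝ) (f : ℕ → E → ℝ) : Prop :=
  0 ≤ K ∧ (∀ j, Continuous (f j)) ∧ ∀ j x, |f j x| ≤ K * (d j + A j x ^ 3 / d j ^ 2)

lemma Dom.split {K : ℝ} {f : ℕ → E → ℝ} (h : Dom K f) {x : E} {k : ℕ}
    (hk : ∀ j ≠ k, A j x ≤ d j) : |∑' j, f j x - f k x| ≤ K := by
  have h1 : ∀ j, ‖if j = k then 0 else f j x‖ ≤ 2 * K * d j := fun j => by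
    have := d_pos j
    have := h.1
    split_ifs with a
    · rw [norm_zero]; positivity
    · refine (h.2.2 j x).trans ?_
      have a1 := pow_le_pow_left₀ (A_pos j x).le (hk j a) 3
      have a2 : A j x ^ 3 / d j ^ 2 ≤ d j := by
        rw [div_le_iff₀ (by positivity)]; linarith
      nlinarith
  have h2 := tsum_of_norm_bounded (d_sum.mul_left (2 * K)) h1
  have h3 : Summable fun j => f j x :=
    ((Summable.of_norm_bounded (d_sum.mul_left (2 * K)).summable h1).add
      (hasSum_ite_eq k (f k x)).summable).congr fun j => by split_ifs with a <;> simp [a]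
  rw [h3.tsum_eq_add_tsum_ite k, add_sub_cancel_left]
  exact h2.trans_eq (by ring)

lemma Dom.int {K : ℝ} {f : ℕ → E → ℝ} (h : Dom K f) {χ : E → ℝ} (h1 : Continuous χ)
    (h2 : HasCompactSupport χ) :
    HasSum (fun j => ∫ x, f j x * χ x) (∫ x, (∑' j, f j x) * χ x) := by
  obtain ⟨c, hc, hA⟩ := A_int
  obtain ⟨M, hM⟩ := h1.bounded_above_of_compact_support h2
  have hi := (h1.integrable_of_hasCompactSupport h2 (μ := volume)).norm
  have hf : ∀ j, Integrable fun x => f j x * χ x := fun j =>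
    ((h.2.1 j).mul h1).integrable_of_hasCompactSupport h2.mul_left
  simp only [← tsum_mul_right]
  refine hasSum_integral_of_summable_integral_norm hf (Summable.of_nonneg_of_le
    (fun j => integral_nonneg fun _ => norm_nonneg _) (fun j => ?_)
    (d_sum.summable.mul_left (K * (∫ x, ‖χ x‖) + K * M * c)))
  have h0 := d_pos j
  have hK := h.1
  refine (integral_mono (g := fun x => K * d j * ‖χ x‖ + K * M / d j ^ 2 * A j x ^ 3) (hf j).norm
    ((hi.const_mul _).add ((hA j).1.const_mul _)) fun x => ?_).trans_eq ?_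
  · have a1 := mul_le_mul_of_nonneg_right (h.2.2 j x) (norm_nonneg (χ x))
    have a2 := mul_le_mul_of_nonneg_left (hM x)
      (show 0 ≤ K * (A j x ^ 3 / d j ^ 2) by have := A_pos j x; positivity)
    simp only [norm_mul, Real.norm_eq_abs (f j x)]
    rw [show K * M / d j ^ 2 * A j x ^ 3 = K * (A j x ^ 3 / d j ^ 2) * M by ring]
    linarith
  · rw [integral_add (hi.const_mul _) ((hA j).1.const_mul _), integral_const_mul,
      integral_const_mul, (hA j).2]
    field_simp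

lemma A_dom (j : ℕ) (x : E) : A j x ≤ d j + A j x ^ 3 / d j ^ 2 := by
  have h0 := d_pos j
  have h1 := A_pos j x
  rcases le_total (A j x) (d j) with h | h
  · exact le_add_of_le_of_nonneg h (by positivity)
  · refine le_add_of_nonneg_of_le h0.le ?_
    rw [le_div_iff₀ (by positivity)]
    nlinarith [pow_le_pow_left₀ h0.le h 2]

noncomputable def p (a : Fin 2) (j : ℕ) (x : E) : ℝ := P a (Y j x)

noncomputable def g (a : Fin 2) (i : Fin 4) (j : ℕ) (x : E) : ℝ := (d j ^ 3)⁻¹ * D a i (Y j x)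

noncomputable def l (a : Fin 2) (j : ℕ) (x : E) : ℝ := (d j ^ 3)⁻¹ * ((d j ^ 3)⁻¹ * L a (Y j x))

lemma gA (a : Fin 2) (i : Fin 4) (j : ℕ) (x : E) : |g a i j x| ≤ 5 * A j x := by
  have h0 := d_pos j
  rw [g, abs_mul, abs_of_pos (by positivity), A, mul_left_comm]
  exact mul_le_mul_of_nonneg_left (bD a i _) (by positivity)

lemma lA (a : Fin 2) (j : ℕ) (x : E) : |l a j x| ≤ 12 * ((d j ^ 3)⁻¹ ^ 2 * s (Y j x) ^ 3) := by
  have h0 := d_pos j
  rw [l, ← mul_assoc, ← sq, abs_mul, abs_of_pos (by positivity), mul_left_comm]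
  exact mul_le_mul_of_nonneg_left (bL a _) (by positivity)

lemma dp (a : Fin 2) : Dom 1 (p a) :=
  ⟨zero_le_one, fun j => by unfold p; fin_cases a <;> simp only [P] <;> simp <;> fun_prop,
    fun j x => by rw [one_mul]; exact (bP a _).trans ((s_le j x).trans (A_dom j x))⟩

lemma dg (a : Fin 2) (i : Fin 4) : Dom 5 (g a i) :=
  ⟨by norm_num, fun j => by unfold g; fin_cases a <;> simp only [D] <;> simp <;> fun_prop,
    fun j x => (gA a i j x).trans (by linarith [A_dom j x])⟩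

lemma dl' (a : Fin 2) : Dom 12 (l a) := by
  refine ⟨by norm_num, fun j => by unfold l; fin_cases a <;> simp only [L] <;> simp <;> fun_prop,
    fun j x => (lA a j x).trans ?_⟩
  have h0 := d_pos j
  have h1 := s_pos (Y j x)
  have h2 : (d j ^ 3)⁻¹ ^ 2 * s (Y j x) ^ 3 = A j x ^ 3 / d j ^ 2 * d j ^ 5 := by
    rw [A]; field_simp
  have h3 := A_pos j x
  have := mul_le_of_le_one_right (show 0 ≤ A j x ^ 3 / d j ^ 2 by positivity)
    (pow_le_one₀ (n := 5) h0.le (by linarith [d_le j]))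
  linarith

noncomputable def u (x : E) : Fin 3 → ℝ := ![∑' j, p 0 j x, ∑' j, p 1 j x, x 0]

noncomputable def G (x : E) : Fin 3 → Fin 4 → ℝ :=
  ![fun i => ∑' j, g 0 i j x, fun i => ∑' j, g 1 i j x, dl]

noncomputable def LL (x : E) : Fin 3 → ℝ := ![∑' j, l 0 j x, ∑' j, l 1 j x, 0]

section
variable {ψ : E → ℝ} (h1 : ContDiff ℝ ∞ ψ) (h2 : HasCompactSupport ψ)
include h1 h2

lemma w1 (a : Fin 3) (i : Fin 4) : ∫ x, u x a * fderiv ℝ ψ x (e i) = -∫ x, G x a i * ψ x := by
  have c := (h1.continuous_fderiv (by simp)).clm_apply (continuous_const (y := e i))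
  have k : ∀ a, ∫ x, (∑' j, p a j x) * fderiv ℝ ψ x (e i) = -∫ x, (∑' j, g a i j x) * ψ x :=
    fun a => ((dp a).int c (h2.fderiv_apply ℝ _)).unique
      ((((dg a i).int h1.continuous h2).neg).congr_fun fun j =>
        ibp (fun x => scale (hP a i _)) ((dp a).2.1 j) ((dg a i).2.1 j) h1 h2)
  fin_cases a
  exacts [k 0, k 1, ibp (f := fun x => x 0) (f' := fun _ => dl i) (fun x =>
    (hc x i 0).congr_deriv (by simp only [dl, eq_comm (a := i)])) (by fun_prop) continuous_const h1 h2]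

lemma w2 (a : Fin 3) : -∑ i, ∫ x, G x a i * fderiv ℝ ψ x (e i) = ∫ x, LL x a * ψ x := by
  have c := fun i => (h1.continuous_fderiv (by simp)).clm_apply (continuous_const (y := e i))
  have k : ∀ a, -∑ i, ∫ x, (∑' j, g a i j x) * fderiv ℝ ψ x (e i) = ∫ x, (∑' j, l a j x) * ψ x :=
    fun a => (hasSum_sum fun i _ => (dg a i).int (c i) (h2.fderiv_apply ℝ _)).neg.unique
      (((dl' a).int h1.continuous h2).congr_fun fun j => by
        have c2 : ∀ i, Continuous fun x => (d j ^ 3)⁻¹ * ((d j ^ 3)⁻¹ * D2 a i (Y j x)) := fun i => by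
          fin_cases a <;> simp only [D2] <;> simp <;> fun_prop
        have c3 : ∀ i x, HasLineDerivAt ℝ (g a i j)
            ((d j ^ 3)⁻¹ * ((d j ^ 3)⁻¹ * D2 a i (Y j x))) x (e i) := fun i x =>
          HasDerivAt.const_mul _ (scale (hD a i _))
        rw [sum_congr rfl fun i _ => ibp (c3 i) ((dg a i).2.1 j) (c2 i) h1 h2, sum_neg_distrib, neg_neg,
          ← integral_finsetSum _ (f := fun i x => (d j ^ 3)⁻¹ * ((d j ^ 3)⁻¹ * D2 a i (Y j x)) * ψ x)
          fun i _ => ((c2 i).mul h1.continuous).integrable_of_hasCompactSupport h2.mul_left]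
        simp only [l, ← sumD2, mul_sum, sum_mul])
  fin_cases a
  · exact k 0
  · exact k 1
  · have : ∀ i, ∫ x, dl i * fderiv ℝ ψ x (e i) = 0 := fun i => by
      rw [ibp (f := fun _ => dl i) (f' := fun _ => 0) (v := e i) (fun x => hasDerivAt_const _ _)
        continuous_const continuous_const h1 h2]
      simp
    simp [G, LL, this]

end

lemma G1 (x : E) : 1 ≤ ‖G x‖ :=
  le_trans (by simp [G, dl]) ((norm_le_pi_norm (G x 2) 0).trans (norm_le_pi_norm (G x) 2))

lemma Gle {x : E} {k : ℕ} (hk : ∀ j ≠ k, A j x ≤ d j) : ‖G x‖ ≤ 5 + 5 * A k x := by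
  have h0 := A_pos k x
  have k : ∀ a i, ‖∑' j, g a i j x‖ ≤ 5 + 5 * A k x := fun a i => by
    have := abs_sub_abs_le_abs_sub (∑' j, g a i j x) (g a i k x)
    rw [Real.norm_eq_abs]
    linarith [(dg a i).split hk, gA a i k x]
  refine (pi_norm_le_iff_of_nonneg (by positivity)).2 fun a =>
    (pi_norm_le_iff_of_nonneg (by positivity)).2 fun i => ?_
  fin_cases a
  exacts [k 0 i, k 1 i, by
    change |dl i| ≤ _
    unfold dl
    split_ifs <;> simp <;> linarith]

lemma LLle (x : E) : ‖LL x‖ ≤ 4000 * ‖G x‖ ^ 2 := by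
  obtain ⟨k, hk⟩ := one_near x
  have h0 := d_pos k
  have h1 := G1 x
  have h2 := low (Y k x) (m := d k ^ 3 * (6 * ‖G x‖)) fun a i => by
    have a1 : |∑' j, g a i j x| ≤ ‖G x‖ := by
      refine le_trans ?_ ((norm_le_pi_norm (G x a.castSucc) i).trans (norm_le_pi_norm (G x) _))
      fin_cases a <;> exact le_rfl
    have a2 := abs_sub_abs_le_abs_sub (g a i k x) (∑' j, g a i j x)
    rw [abs_sub_comm] at a2
    have a3 : |g a i k x| ≤ 6 * ‖G x‖ := by linarith [(dg a i).split hk]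
    rwa [g, abs_mul, abs_of_pos (by positivity), inv_mul_le_iff₀ (by positivity)] at a3
  have h3 : (d k ^ 3)⁻¹ ^ 2 * s (Y k x) ^ 3 ≤ 324 * ‖G x‖ ^ 2 := by
    rw [inv_pow, inv_mul_le_iff₀ (by positivity)]
    linarith
  have k : ∀ a, ‖∑' j, l a j x‖ ≤ 4000 * ‖G x‖ ^ 2 := fun a => by
    have := abs_sub_abs_le_abs_sub (∑' j, l a j x) (l a k x)
    rw [Real.norm_eq_abs]
    nlinarith [(dl' a).split hk, lA a k x]
  refine (pi_norm_le_iff_of_nonneg (by positivity)).2 fun a => ?_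
  fin_cases a
  exacts [k 0, k 1, by simp [LL]]

lemma Gm : Measurable G := by
  refine measurable_pi_lambda _ fun a => measurable_pi_lambda _ fun i => ?_
  fin_cases a
  exacts [.tsum fun j => ((dg 0 i).2.1 j).measurable, .tsum fun j => ((dg 1 i).2.1 j).measurable,
    measurable_const]

lemma cube {t a : ℝ} (h0 : 0 ≤ t) (ha : 0 ≤ a) (h : t ≤ 5 + 5 * a) : t ^ 3 ≤ 500 + 500 * a ^ 3 :=
  (pow_le_pow_left₀ h0 h 3).trans (by nlinarith [mul_nonneg (add_nonneg ha zero_le_one) (sq_nonneg (a - 1))])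

lemma vol : ∃ V, 0 ≤ V ∧ ∀ (x : E) (r : ℝ), 0 < r → volume (ball x r) = .ofReal (V * r ^ 4) :=
  ⟨(volume (ball (0 : E) 1)).toReal, ENNReal.toReal_nonneg, fun x r hr => by
    rw [Measure.addHaar_ball _ _ hr.le, ENNReal.ofReal_mul ENNReal.toReal_nonneg,
      ENNReal.ofReal_toReal measure_ball_lt_top.ne, mul_comm]
    simp⟩

lemma en (x : E) : ‖G x‖ₑ ^ 3 = .ofReal (‖G x‖ ^ 3) := by
  rw [ENNReal.ofReal_pow (norm_nonneg _), ofReal_norm]

lemma M0 : ∃ C, 0 ≤ C ∧ ∀ r, 0 < r → r ≤ 1 →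
    ∫⁻ x in ball 0 r, ‖G x‖ₑ ^ 3 ≤ .ofReal (C * r ^ 2) := by
  obtain ⟨c, hc, hA⟩ := A_int
  obtain ⟨V, hV, hv⟩ := vol
  refine ⟨1000 * V + 500 * c * (1 / 2), by positivity, fun r h0 h1 => ?_⟩
  let F : ℕ → E → ℝ := fun j x => (if d j < r then 500 else 0) * A j x ^ 3
  have hF : ∀ j x, 0 ≤ F j x := fun j x => by
    have := A_pos j x
    simp only [F]
    split_ifs <;> positivity
  refine (setLIntegral_mono' (g := fun x => .ofReal 1000 + ∑' j, .ofReal (F j x))
    measurableSet_ball fun x hx => ?_).trans ?_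
  · obtain ⟨k, hk⟩ := one_near x
    refine le_trans ?_ (add_le_add le_rfl (ENNReal.le_tsum k))
    rw [en, ← ENNReal.ofReal_add (by norm_num) (hF k x)]
    refine ENNReal.ofReal_le_ofReal ((cube (norm_nonneg _) (A_pos k x).le (Gle hk)).trans ?_)
    by_cases a : d k < A k x
    · have a1 := (le_abs_self _).trans (PiLp.norm_apply_le x 0)
      have : d k < r := by linarith [(near a).1, mem_ball_zero_iff.1 hx, d_pos k]
      simp only [F, this, if_true]
      linarith
    · have := pow_le_one₀ (n := 3) (A_pos k x).le (by linarith [d_le k])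
      linarith [hF k x]
  rw [lintegral_add_left measurable_const, setLIntegral_const, hv _ _ h0,
    lintegral_tsum fun j => by simp only [F]; fun_prop, ← ENNReal.ofReal_mul (by norm_num)]
  have h2 : ∑' j, ∫⁻ x in ball 0 r, .ofReal (F j x) ≤ ENNReal.ofReal (500 * c * r ^ 2 * (1 / 2)) := by
    rw [← (d_sum.mul_left _).tsum_eq, ENNReal.ofReal_tsum_of_nonneg
      (fun j => by have := d_pos j; positivity) (d_sum.mul_left _).summable]
    refine ENNReal.tsum_le_tsum fun j => (setLIntegral_le_lintegral _ _).trans ?_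
    rw [← ofReal_integral_eq_lintegral_ofReal ((hA j).1.const_mul _) (.of_forall (hF j)),
      integral_const_mul, (hA j).2]
    refine ENNReal.ofReal_le_ofReal ?_
    have := d_pos j
    split_ifs with a
    · have := mul_le_mul_of_nonneg_left (pow_le_pow_left₀ this.le a.le 2) (mul_nonneg hc this.le)
      nlinarith
    · rw [zero_mul]; positivity
  refine (add_le_add le_rfl h2).trans ?_
  rw [← ENNReal.ofReal_add (by positivity) (by positivity)]
  refine ENNReal.ofReal_le_ofReal ?_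
  have := mul_le_mul_of_nonneg_left (pow_le_pow_of_le_one h0.le h1 (show 2 ≤ 4 by norm_num)) hV
  linarith

lemma M1 (x0 : E) : ∃ C, ∀ᶠ r in 𝓝[>] (0 : ℝ),
    ∫⁻ x in ball x0 r, ‖G x‖ₑ ^ 3 ≤ .ofReal (C * r ^ 2) := by
  rcases eq_or_ne x0 0 with rfl | h
  · obtain ⟨C, -, h⟩ := M0
    exact ⟨C, Eventually.mono (Ioc_mem_nhdsGT one_pos) fun r hr => h r hr.1 hr.2⟩
  obtain ⟨V, hV, hv⟩ := vol
  have h0 := norm_pos_iff.2 h
  obtain ⟨B, b0, hB⟩ : ∃ B, 0 ≤ B ∧ ∀ x ∈ ball x0 (‖x0‖ / 2), ‖G x‖ ≤ B := by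
    refine ⟨5 + 5 * (1 + ((‖x0‖ / 10) ^ 3)⁻¹), by positivity, fun x hx => ?_⟩
    obtain ⟨k, hk⟩ := one_near x
    refine (Gle hk).trans ?_
    gcongr
    by_cases a : d k < A k x
    · refine (A_le k x).trans (le_add_of_nonneg_of_le zero_le_one ?_)
      have a1 := norm_sub_norm_le x0 x
      rw [mem_ball', dist_eq_norm] at hx
      gcongr
      linarith [(near a).2.2]
    · exact le_add_of_le_of_nonneg (by linarith [d_le k]) (by positivity)
  refine ⟨B ^ 3 * V, ?_⟩
  filter_upwards [Ioc_mem_nhdsGT one_pos, Ioc_mem_nhdsGT (half_pos h0)] with r h1 h2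
  refine (setLIntegral_mono' (g := fun _ => .ofReal (B ^ 3)) measurableSet_ball
    fun x hx => ?_).trans ?_
  · rw [en]
    exact ENNReal.ofReal_le_ofReal (pow_le_pow_left₀ (norm_nonneg _)
      (hB x (ball_subset_ball h2.2 hx)) 3)
  · rw [setLIntegral_const, hv _ _ h1.1, ← ENNReal.ofReal_mul (by positivity), mul_assoc]
    have := pow_le_pow_of_le_one h1.1.le h1.2 (show 2 ≤ 4 by norm_num)
    exact ENNReal.ofReal_le_ofReal (by gcongr)

lemma disc : ¬ ∃ v : E → Fin 3 → ℝ, ContinuousOn v (ball 0 (1 / 2)) ∧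
    u =ᵐ[volume.restrict (ball 0 (1 / 2))] v := by
  rintro ⟨v, h1, h2⟩
  have h3 : ContinuousAt (fun x => v x 0) 0 := (continuous_apply 0).continuousAt.comp
    (h1.continuousAt (ball_mem_nhds _ (by norm_num)))
  obtain ⟨δ, δ0, hδ⟩ := Metric.continuousAt_iff.1 h3 (1 / 8) (by norm_num)
  obtain ⟨k, hk⟩ := (d_sum.summable.tendsto_atTop_zero.eventually_lt_const
    (show 0 < min δ (1 / 2) / 5 by positivity)).exists
  have h0 := d_pos k
  have hr : d k ^ 3 ≤ d k := pow_le_of_le_one h0.le (by linarith [d_le k]) (by norm_num)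
  have key : ∀ t : ℝ, |t| = 4 * d k → ∃ x, ‖x - t • e 0‖ < d k ^ 3 ∧
      |∑' j, p 0 j x - v 0 0| < 1 / 8 := fun t ht => by
    have hs : ball (t • e 0) (d k ^ 3) ⊆ ball 0 (min δ (1 / 2)) := ball_subset_ball' (by
      rw [dist_zero_right, norm_smul, PiLp.norm_single, norm_one, Real.norm_eq_abs, ht]
      linarith)
    obtain ⟨x, a1, a2⟩ := Measure.exists_mem_of_measure_ne_zero_of_ae
      (measure_ball_pos volume (t • e 0) (pow_pos h0 3)).ne' (ae_restrict_of_ae_restrict_of_subset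
        (hs.trans (ball_subset_ball (min_le_right _ _))) h2)
    refine ⟨x, mem_ball_iff_norm.1 a1, ?_⟩
    have := hδ (ball_subset_ball (min_le_left _ _) (hs a1))
    rwa [← a2] at this
  obtain ⟨x, x1, x2⟩ := key (4 * d k) (abs_of_pos (by positivity))
  obtain ⟨y, y1, y2⟩ := key (-(4 * d k)) (by rw [abs_neg, abs_of_pos (by positivity)])
  have hs : ∀ j z, A j z ≤ d j → p 0 j z ≤ 1 / 64 * d j := fun j z h => by
    have a0 := d_pos j
    rw [A, inv_mul_le_iff₀ (by positivity)] at h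
    have := pow_le_pow_left₀ a0.le (d_le j) 3
    exact h.trans (by nlinarith)
  have y3 : ‖∑' j, p 0 j y‖ ≤ 1 / 64 * (1 / 2) :=
    tsum_of_norm_bounded (d_sum.mul_left _) fun j => by
      refine (Real.norm_of_nonneg (s_pos _).le).trans_le ?_
      refine hs j y (le_of_not_gt fun a => ?_)
      have a1 := (le_abs_self _).trans (PiLp.norm_apply_le (y - -(4 * d k) • e 0) 0)
      simp at a1
      simp at y1
      linarith [(near a).1, d_pos j]
  have x3 : 1 / 2 ≤ p 0 k x := by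
    have a1 : ‖Y k x‖ ≤ 1 := by
      rw [Y, norm_smul, Real.norm_of_nonneg (by positivity), inv_mul_le_iff₀ (by positivity)]
      linarith
    have a2 := pow_le_one₀ (n := 2) (norm_nonneg _) a1
    rw [one_div]
    exact inv_anti₀ (by positivity) (by linarith)
  have x4 : p 0 k x ≤ ∑' j, p 0 j x := by
    obtain ⟨m, hm⟩ := one_near x
    refine Summable.le_tsum (f := fun j => p 0 j x) (.of_norm_bounded_eventually (d_sum.mul_left (1 / 64)).summable
      ((Set.finite_singleton m).subset fun j hj => ?_)) k fun j _ => (s_pos _).le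
    by_contra a
    exact hj ((Real.norm_of_nonneg (s_pos _).le).trans_le (hs j x (hm j a)))
  linarith [(abs_lt.1 x2).2, (abs_lt.1 y2).1, (le_abs_self _).trans y3]

theorem main : ∃ (Q : E → (Fin 3 → ℝ) → (Fin 3 → Fin 4 → ℝ) → Fin 3 → ℝ) (C : ℝ)
    (u : E → Fin 3 → ℝ) (G : E → Fin 3 → Fin 4 → ℝ),
    (∀ y z, Measurable fun x => Q x y z) ∧
    (∀ x, Continuous fun w : (Fin 3 → ℝ) × (Fin 3 → Fin 4 → ℝ) => Q x w.1 w.2) ∧
    (∀ x y z, ‖Q x y z‖ ≤ C * ‖z‖ ^ 2) ∧
    MemLp u 3 (volume.restrict (ball 0 1)) ∧ MemLp G 3 (volume.restrict (ball 0 1)) ∧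
    (∀ ψ : E → ℝ, ContDiff ℝ ∞ ψ → HasCompactSupport ψ → ∀ a,
      (∀ i, ∫ x, u x a * fderiv ℝ ψ x (e i) = -∫ x, G x a i * ψ x) ∧
      -∑ i, ∫ x, G x a i * fderiv ℝ ψ x (e i) = ∫ x, Q x (u x) (G x) a * ψ x) ∧
    (∀ x0 : E, Tendsto (fun r : ℝ => (∫⁻ x in ball x0 r, ‖G x‖ₑ ^ 3) / .ofReal r) (𝓝[>] 0) (𝓝 0)) ∧
    ¬ ∃ v : E → Fin 3 → ℝ, ContinuousOn v (ball 0 (1 / 2)) ∧
      u =ᵐ[volume.restrict (ball 0 (1 / 2))] v := by
  have hG : ∀ x, 0 < ‖G x‖ ^ 2 := fun x => by have := G1 x; positivity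
  have hL : Measurable LL := measurable_pi_lambda _ fun a => by
    fin_cases a
    exacts [.tsum fun j => ((dl' 0).2.1 j).measurable, .tsum fun j => ((dl' 1).2.1 j).measurable,
      measurable_const]
  have hu : Measurable u := measurable_pi_lambda _ fun a => by
    fin_cases a
    exacts [.tsum fun j => ((dp 0).2.1 j).measurable, .tsum fun j => ((dp 1).2.1 j).measurable,
      (show Continuous fun x : E => x 0 by fun_prop).measurable]
  have := Gm
  have : IsFiniteMeasure (volume.restrict (ball (0 : E) 1)) :=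
    isFiniteMeasure_restrict.2 measure_ball_lt_top.ne
  refine ⟨fun x _ z => (‖z‖ ^ 2 / ‖G x‖ ^ 2) • LL x, 4000, u, G, fun y z => by fun_prop,
    fun x => by fun_prop, fun x y z => ?_, .of_bound hu.aestronglyMeasurable 2 ?_,
    ⟨Gm.aestronglyMeasurable, ?_⟩, fun ψ h1 h2 a => ⟨w1 h1 h2 a, ?_⟩, fun x0 => ?_, disc⟩
  · rw [norm_smul, Real.norm_of_nonneg (by positivity), div_mul_eq_mul_div, div_le_iff₀ (hG x)]
    nlinarith [LLle x, sq_nonneg ‖z‖]
  · filter_upwards [ae_restrict_mem measurableSet_ball] with x hx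
    obtain ⟨k, hk⟩ := one_near x
    have k : ∀ a, ‖∑' j, p a j x‖ ≤ 2 := fun a => by
      have := abs_sub_abs_le_abs_sub (∑' j, p a j x) (p a k x)
      have a1 : |p a k x| ≤ 1 := (bP a _).trans (ys _ 0).1
      rw [Real.norm_eq_abs]
      linarith [(dp a).split hk]
    refine (pi_norm_le_iff_of_nonneg zero_le_two).2 fun a => ?_
    fin_cases a
    exacts [k 0, k 1, (PiLp.norm_apply_le x 0).trans (by linarith [mem_ball_zero_iff.1 hx])]
  · obtain ⟨C, -, h⟩ := M0
    rw [eLpNorm_lt_top_iff_lintegral_rpow_enorm_lt_top (by simp) (by simp)]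
    simpa using (h 1 one_pos le_rfl).trans_lt ENNReal.ofReal_lt_top
  · simp only [div_self (hG _).ne', one_smul]
    exact w2 h1 h2 a
  · obtain ⟨C, h⟩ := M1 x0
    have a1 : Tendsto (fun r : ℝ => ENNReal.ofReal (C * r)) (𝓝[>] 0) (𝓝 0) :=
      (Continuous.tendsto' (ENNReal.continuous_ofReal.comp (by fun_prop)) 0 0
        (by simp)).mono_left nhdsWithin_le_nhds
    refine tendsto_of_tendsto_of_tendsto_of_le_of_le' tendsto_const_nhds a1
      (.of_forall fun _ => zero_le) ?_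
    filter_upwards [h, self_mem_nhdsWithin] with r h1 h2
    refine ENNReal.div_le_of_le_mul (h1.trans_eq ?_)
    rw [← ENNReal.ofReal_mul' (le_of_lt h2), sq, mul_assoc]

end Pool.Agent.H.MP_105042_an
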